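import Pool.Agent.H66.XP.TG

/-!
# Board XP, row BFC: a game whose leaves are formulas does not see a block
-/

set_option autoImplicit false

namespace Pool.Agent.H95.XP

open Finset Pool.Agent.H6.NB Pool.Agent.H70.EH Pool.Agent.H78.XQ
open Pool.Agent.H66.IQ Pool.Agent.H66.XP

private theorem bfc_cc {V : Type} (t : Tr V) : t.cc ≤ t.dp := by
  induction t with
  | lf a => exact le_rfl
  | av l r hl hr =>
    show max l.cc r.cc ≤ max l.dp r.dp + 1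
    omega
  | ch l r hl hr =>
    show max l.cc r.cc + 1 ≤ max l.dp r.dp + 1
    omega

private theorem bfc_card {q l n : ℕ} (K : Mk l n) (B : Bc q l n) :
    nv (kp K B) none + K.2.card = 2 ^ n := by
  have h1 : nv (kp K B) none = (univ \ K.2).card := by
    unfold nv
    congr 1
    ext z
    by_cases hz : z ∈ K.2 <;> simp [kp, hz]
  have h2 : Fintype.card (Fin n → Bool) = 2 ^ n := by
    rw [Fintype.card_fun, Fintype.card_bool, Fintype.card_fin]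
  rw [h1, ← h2, ← Finset.card_univ, Finset.card_sdiff_add_card_eq_card (Finset.subset_univ _)]

theorem pf_BFC (hEVS : Pool.Agent.H66.IQ.T_EVS) (hBLC : T_BLC) (hOND : Pool.Agent.H66.IQ.T_OND)
    (hGWK : T_GWK) (hNUC : T_NUC) : T_BFC := by
  intro r l q R n hS b K B F hK1 hK2 h1 h2
  obtain ⟨hN1, hN0, hN2⟩ := hNUC r l q R n hS
  have hr : 20 ≤ r := hS.r_ge
  obtain ⟨d, rfl⟩ : ∃ d, r = d + 1 := ⟨r - 1, by omega⟩
  have hl : 0 < l := by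
    have h3 : 0 < 16 * (d + 1) ^ 3 := by positivity
    exact lt_of_lt_of_le h3 hS.l_ge
  have hq : 10 ≤ q := by
    rw [hS.q_eq]
    omega
  have hR : 0 < R := by
    rw [hS.R_eq]
    positivity
  have hδ : (0 : ℝ) < 2 * R / 2 ^ l := by
    have : (0 : ℝ) < R := by exact_mod_cast hR
    positivity
  have hw1 : 1 ≤ 4 ^ (d + 1) := Nat.one_le_pow _ _ (by norm_num)
  have hk1 : 1 ≤ 2 ^ (d + 1) := Nat.one_le_two_pow
  have h01 : ∀ c, 0 ≤ F c ∧ F c ≤ 1 := by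
    rintro ⟨P, h⟩
    obtain ⟨t, -, -, ht⟩ := h2 P
    rw [ht h]
    obtain ⟨h3, h4, h5, -⟩ := hEVS _ 1 t h one_pos
    exact ⟨h3.trans h4, h5⟩
  have key := hBLC (d + 1) l q R n hS b K B F
    ((128 * ((4 ^ (d + 1) : ℕ) : ℝ)) ^ (2 * (d + 1)) *
      (4003 * ((2 ^ (d + 1) : ℕ) : ℝ) ^ 2 * (((2 ^ (d + 1) : ℕ) : ℝ) + 1) *
          ((4 ^ (d + 1) : ℕ) : ℝ) ^ 2 / 2 ^ (q / 4) +
        (2 * 2 ^ q) ^ 2 * 2 ^ 2 ^ (d + 1) * (((2 ^ 2 ^ (d + 1) : ℕ) : ℝ) + 1) ^ (d + 1) /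
          2 ^ 4 ^ (d + 1)))
    (2 ^ 2 ^ (d + 1) * (((2 ^ 2 ^ (d + 1) : ℕ) : ℝ) + 1) ^ (d + 1) / 2 ^ 4 ^ (d + 1) +
      4 * Real.exp (-(2 ^ n * (2 * R / 2 ^ l) ^ 2 / 4)) +
      4 * ((4 ^ (d + 1) : ℕ) : ℝ) *
        (15 * (2 * R / 2 ^ l) * (128 * ((4 ^ (d + 1) : ℕ) : ℝ)) ^ (d + 1) +
        √(4 * (128 * ((4 ^ (d + 1) : ℕ) : ℝ)) ^ (d + 1) / 2 ^ n)) +
      64 * (128 * ((4 ^ (d + 1) : ℕ) : ℝ)) ^ (d + 1) / 2 ^ n)
    hK1 hK2 h01 (by positivity) (by positivity) (fun P u h => ?_) (fun P W hW => ?_)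
  · exact key.trans hN2
  · obtain ⟨t, ht1, ht2, ht3⟩ := h1 P u h
    have h4 := hOND q (2 ^ (d + 1)) (2 ^ (d + 1)) (2 ^ 2 ^ (d + 1)) d (4 ^ (d + 1)) t hq hk1 hw1
      ((bfc_cc t).trans ht1) ht1 ht2
    simp only [ht3]
    exact h4
  · obtain ⟨t, ht1, ht2, ht3⟩ := h2 P
    have hc : (Fintype.card (Fin n → Bool) : ℝ) = 2 ^ n := by
      rw [Fintype.card_fun, Fintype.card_bool, Fintype.card_fin]
      push_cast
      rfl
    have hv : (Fintype.card (Fin n → Bool) : ℝ) - nv (kp K B) none ≤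
        2 * R / 2 ^ l / 4 * Fintype.card (Fin n → Bool) := by
      have h6 : ((nv (kp K B) none : ℕ) : ℝ) + K.2.card = 2 ^ n := by
        exact_mod_cast bfc_card K B
      have h7 : (K.2.card : ℝ) ≤ 2 ^ (2 * (d + 1)) := by exact_mod_cast hK2
      rw [hc]
      linarith
    have h4 := hGWK (Fin n → Bool) (kp K B) (2 ^ 2 ^ (d + 1)) d (4 ^ (d + 1)) W (2 * R / 2 ^ l) t
      hw1 hδ hN1 ht2 hv (by rw [hc]; exact hW)
    rw [hc] at h4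
    have h5 : (fun h : (Fin n → Bool) → Bool => F (P, h)) = t.ev := funext ht3
    rw [h5]
    refine h4.trans ?_
    have h6 : (2 : ℝ) ^ t.dp ≤ 2 ^ 2 ^ (d + 1) := pow_le_pow_right₀ (by norm_num) ht1
    have h7 : (2 : ℝ) ^ t.dp * (((2 ^ 2 ^ (d + 1) : ℕ) : ℝ) + 1) ^ (d + 1) / 2 ^ 4 ^ (d + 1) ≤
        2 ^ 2 ^ (d + 1) * (((2 ^ 2 ^ (d + 1) : ℕ) : ℝ) + 1) ^ (d + 1) / 2 ^ 4 ^ (d + 1) := by
      gcongr
    linarith

end Pool.Agent.H95.XP
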